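import Pool.Agent.W323.PT.Stm

/-! PT-Class: classification of the homogeneous sign tables (helper382) -/

set_option autoImplicit false

namespace Pool.Agent.W382.PT

open Pool.Agent.W323.PT

/-- conjunction over the two letters -/
def allB (f : Bool → Bool) : Bool := f false && f true

/-- the four point check -/
def ok4 (σ : Bool → Bool → Bool → Bool) (a b c d : Bool) : Bool :=
  !((σ a b c && σ a c d && !σ a b d && !σ b c d) || (!σ a b c && !σ a c d && σ a b d && σ b c d))

/-- three numbers with sum zero do not all have the same sign -/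
def ns (t1 t2 t3 : Bool) : Bool := !(t1 && t2 && t3) && (t1 || t2 || t3)

/-- the Grassmann Pluecker check -/
def gp (x1 x2 y1 y2 z1 z2 : Bool) : Bool := ns (x1 == x2) (!(y1 == y2)) (z1 == z2)

/-- the five point checks -/
def ok5 (σ : Bool → Bool → Bool → Bool) (a b c d e : Bool) : Bool :=
  gp (σ a b c) (σ a d e) (σ a b d) (σ a c e) (σ a b e) (σ a c d) &&
  (gp (!σ a b c) (σ b d e) (!σ a b d) (σ b c e) (!σ a b e) (σ b c d) &&
  (gp (σ a b c) (σ c d e) (!σ a c d) (!σ b c e) (!σ a c e) (!σ b c d) &&
  (gp (σ a b d) (!σ c d e) (σ a c d) (!σ b d e) (!σ a d e) (σ b c d) &&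
  gp (σ a b e) (σ c d e) (σ a c e) (σ b d e) (σ a d e) (σ b c e))))

/-- all checks -/
def okB (σ : Bool → Bool → Bool → Bool) : Bool :=
  allB fun a => allB fun b => allB fun c => allB fun d => ok4 σ a b c d &&
    allB fun e => ok5 σ a b c d e

/-- the orientation of three points with distinct indices -/
def sg (σ : Bool → Bool → Bool → Bool) (u v w : Bool × ℕ) : Bool :=
  bif Nat.blt u.2 v.2 then
    (bif Nat.blt v.2 w.2 then σ u.1 v.1 w.1 else
      bif Nat.blt u.2 w.2 then !(σ u.1 w.1 v.1) else σ w.1 u.1 v.1)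
  else
    (bif Nat.blt u.2 w.2 then !(σ v.1 u.1 w.1) else
      bif Nat.blt v.2 w.2 then σ v.1 w.1 u.1 else !(σ w.1 v.1 u.1))

/-- the pattern check -/
def pv (σ : Bool → Bool → Bool → Bool) (c r1 r2 r3 r4 x y z w : Bool × ℕ) : Bool :=
  sg σ c r1 r2 && (sg σ c r1 r3 && (sg σ c r1 r4 && (sg σ c r2 r3 && (sg σ c r2 r4 &&
    (sg σ c r3 r4 && (sg σ c r1 x && (sg σ c x r2 && (sg σ c r3 y && (sg σ c y r4 &&
      (sg σ c z r2 && (sg σ c r3 z && (sg σ c w r2 && sg σ c r3 w))))))))))))

/-- one vertex pattern -/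
def pa (σ : Bool → Bool → Bool → Bool) (lc : Bool) (rc : ℕ) (lx : Bool) (rx : ℕ) (ly : Bool)
    (ry : ℕ) (rk : ℕ) (swx swy : Bool) : Bool :=
  pv σ (lc, 3 * rc + 1) (lx, 3 * rx + bif swx then 2 else 0) (lx, 3 * rx + bif swx then 0 else 2)
    (ly, 3 * ry + bif swy then 2 else 0) (ly, 3 * ry + bif swy then 0 else 2) (lx, 3 * rx + 1)
    (ly, 3 * ry + 1) (false, 3 * rk + 1) (true, 3 * rk + 1)

/-- some vertex pattern -/
def patB (σ : Bool → Bool → Bool → Bool) : Bool :=
  pa σ false 2 true 0 false 1 3 true true ||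
  (pa σ false 1 false 2 true 3 0 true true ||
  (pa σ true 1 false 3 true 2 0 false false ||
  (pa σ false 2 false 1 true 0 3 false false ||
  (pa σ false 1 true 3 false 2 0 false false ||
  (pa σ true 2 true 1 false 0 3 false false ||
  (pa σ true 2 false 0 true 1 3 true true ||
  (pa σ true 1 true 2 false 3 0 true true ||
  (pa σ true 2 true 1 false 0 3 false true ||
  (pa σ false 2 false 1 true 0 3 false true ||
  (pa σ true 1 true 2 false 3 0 true false ||
  pa σ true 1 false 2 true 3 0 true false))))))))))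

/-- all entries are equal -/
def eqB (σ : Bool → Bool → Bool → Bool) : Bool :=
  allB fun a => allB fun b => allB fun c => σ a b c == σ false false false

/-- block tables -/
def blkB (σ : Bool → Bool → Bool → Bool) : Bool :=
  (σ false true false == !σ true false false) && ((σ false false true == σ true false false) &&
    ((σ true false true == !σ false true true) && (σ true true false == σ false true true)))

/-- the table given by its entries -/
def mk (a0 a1 a2 a3 a4 a5 a6 a7 : Bool) (x y z : Bool) : Bool :=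
  bif x then (bif y then (bif z then a7 else a6) else (bif z then a5 else a4))
  else (bif y then (bif z then a3 else a2) else (bif z then a1 else a0))

/-- the claim for one table -/
def chk (σ : Bool → Bool → Bool → Bool) : Bool := !okB σ || (patB σ || (eqB σ || blkB σ))

set_option maxRecDepth 100000 in
theorem all_chk : ∀ a0 a1 a2 a3 a4 a5 a6 a7 : Bool, chk (mk a0 a1 a2 a3 a4 a5 a6 a7) = true := by
  decide +kernel

theorem all_true {f : Bool → Bool} (h : ∀ x, f x = true) : allB f = true := by
  unfold allB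
  rw [h false, h true]
  rfl

theorem allB_spec {f : Bool → Bool} (h : allB f = true) : ∀ x, f x = true := by
  unfold allB at h
  rw [Bool.and_eq_true] at h
  intro x
  cases x
  · exact h.1
  · exact h.2

theorem mk_eq (σ : Bool → Bool → Bool → Bool) :
    σ = mk (σ false false false) (σ false false true) (σ false true false) (σ false true true)
      (σ true false false) (σ true false true) (σ true true false) (σ true true true) := by
  funext x y z
  cases x <;> cases y <;> cases z <;> rfl

theorem chk_true (σ : Bool → Bool → Bool → Bool) : chk σ = true := by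
  rw [mk_eq σ]
  exact all_chk _ _ _ _ _ _ _ _

/-- the sign of a real number -/
def Sg (b : Bool) (x : ℝ) : Prop := (b = true → 0 < x) ∧ (b = false → x < 0)

theorem Sg_neg {b : Bool} {x : ℝ} (h : Sg b x) : Sg (!b) (-x) := by
  cases b
  · exact ⟨fun _ => neg_pos.2 (h.2 rfl), fun h' => absurd h' (by decide)⟩
  · exact ⟨fun h' => absurd h' (by decide), fun _ => neg_neg_of_pos (h.1 rfl)⟩

theorem Sg_mul {a b : Bool} {x y : ℝ} (h1 : Sg a x) (h2 : Sg b y) : Sg (a == b) (x * y) := by
  cases a <;> cases b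
  · exact ⟨fun _ => mul_pos_of_neg_of_neg (h1.2 rfl) (h2.2 rfl), fun h' => absurd h' (by decide)⟩
  · exact ⟨fun h' => absurd h' (by decide), fun _ => mul_neg_of_neg_of_pos (h1.2 rfl) (h2.1 rfl)⟩
  · exact ⟨fun h' => absurd h' (by decide), fun _ => mul_neg_of_pos_of_neg (h1.1 rfl) (h2.2 rfl)⟩
  · exact ⟨fun _ => mul_pos (h1.1 rfl) (h2.1 rfl), fun h' => absurd h' (by decide)⟩

theorem ns_true {a b c : Bool} {x y z : ℝ} (h1 : Sg a x) (h2 : Sg b y) (h3 : Sg c z)
    (h : x + y + z = 0) : ns a b c = true := by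
  cases a <;> cases b <;> cases c
  · exfalso
    have := h1.2 rfl
    have := h2.2 rfl
    have := h3.2 rfl
    linarith
  all_goals first
    | rfl
    | (exfalso
       have := h1.1 rfl
       have := h2.1 rfl
       have := h3.1 rfl
       linarith)

theorem gp_true {a1 a2 b1 b2 c1 c2 : Bool} {x1 x2 y1 y2 z1 z2 : ℝ} (h1 : Sg a1 x1) (h2 : Sg a2 x2)
    (h3 : Sg b1 y1) (h4 : Sg b2 y2) (h5 : Sg c1 z1) (h6 : Sg c2 z2)
    (h : x1 * x2 - y1 * y2 + z1 * z2 = 0) : gp a1 a2 b1 b2 c1 c2 = true := by
  unfold gp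
  exact ns_true (Sg_mul h1 h2) (Sg_neg (Sg_mul h3 h4)) (Sg_mul h5 h6) (by linarith)

theorem okB_true {P : Bool → ℕ → Pt} {σ : Bool → Bool → Bool → Bool} (h : Hom 12 P σ) :
    okB σ = true := by
  have hs : ∀ i j k, i < j → j < k → k < 12 → ∀ b1 b2 b3 : Bool,
      Sg (σ b1 b2 b3) (o (P b1 i) (P b2 j) (P b3 k)) := fun i j k h1 h2 h3 b1 b2 b3 =>
    h i j k h1 h2 h3 b1 b2 b3
  unfold okB
  refine all_true fun a => all_true fun b => all_true fun c => all_true fun d => ?_
  rw [Bool.and_eq_true]
  constructor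
  · have h1 := hs 0 1 2 (by norm_num) (by norm_num) (by norm_num) a b c
    have h2 := hs 0 2 3 (by norm_num) (by norm_num) (by norm_num) a c d
    have h3 := hs 0 1 3 (by norm_num) (by norm_num) (by norm_num) a b d
    have h4 := hs 1 2 3 (by norm_num) (by norm_num) (by norm_num) b c d
    have hid : o (P a 0) (P b 1) (P c 2) + o (P a 0) (P c 2) (P d 3) =
        o (P a 0) (P b 1) (P d 3) + o (P b 1) (P c 2) (P d 3) := by
      unfold o
      ring
    unfold ok4
    cases e1 : σ a b c <;> cases e2 : σ a c d <;> cases e3 : σ a b d <;> cases e4 : σ b c d <;>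
      first
      | rfl
      | (exfalso
         have k1 := h1.1 e1
         have k2 := h2.1 e2
         have k3 := h3.2 e3
         have k4 := h4.2 e4
         linarith)
      | (exfalso
         have k1 := h1.2 e1
         have k2 := h2.2 e2
         have k3 := h3.1 e3
         have k4 := h4.1 e4
         linarith)
  · refine all_true fun e => ?_
    have a012 := hs 0 1 2 (by norm_num) (by norm_num) (by norm_num) a b c
    have a013 := hs 0 1 3 (by norm_num) (by norm_num) (by norm_num) a b d
    have a014 := hs 0 1 4 (by norm_num) (by norm_num) (by norm_num) a b e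
    have a023 := hs 0 2 3 (by norm_num) (by norm_num) (by norm_num) a c d
    have a024 := hs 0 2 4 (by norm_num) (by norm_num) (by norm_num) a c e
    have a034 := hs 0 3 4 (by norm_num) (by norm_num) (by norm_num) a d e
    have a123 := hs 1 2 3 (by norm_num) (by norm_num) (by norm_num) b c d
    have a124 := hs 1 2 4 (by norm_num) (by norm_num) (by norm_num) b c e
    have a134 := hs 1 3 4 (by norm_num) (by norm_num) (by norm_num) b d e
    have a234 := hs 2 3 4 (by norm_num) (by norm_num) (by norm_num) c d e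
    unfold ok5
    simp only [Bool.and_eq_true]
    refine ⟨?_, ?_, ?_, ?_, ?_⟩
    · exact gp_true a012 a034 a013 a024 a014 a023 (by unfold o; ring)
    · exact gp_true (Sg_neg a012) a134 (Sg_neg a013) a124 (Sg_neg a014) a123 (by unfold o; ring)
    · exact gp_true a012 a234 (Sg_neg a023) (Sg_neg a124) (Sg_neg a024) (Sg_neg a123)
        (by unfold o; ring)
    · exact gp_true a013 (Sg_neg a234) a023 (Sg_neg a134) (Sg_neg a034) a123
        (by unfold o; ring)
    · exact gp_true a014 a234 a024 a134 a034 a124 (by unfold o; ring)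

theorem sg_pos {P : Bool → ℕ → Pt} {σ : Bool → Bool → Bool → Bool} (h : Hom 12 P σ)
    {u v w : Bool × ℕ} (hu : u.2 < 12) (hv : v.2 < 12) (hw : w.2 < 12) (h1 : u.2 ≠ v.2)
    (h2 : u.2 ≠ w.2) (h3 : v.2 ≠ w.2) (hs : sg σ u v w = true) :
    0 < o (pt P u) (pt P v) (pt P w) := by
  have hh : ∀ i j k, i < j → j < k → k < 12 → ∀ b1 b2 b3 : Bool,
      Sg (σ b1 b2 b3) (o (P b1 i) (P b2 j) (P b3 k)) := fun i j k h1 h2 h3 b1 b2 b3 =>
    h i j k h1 h2 h3 b1 b2 b3
  have hb : ∀ a b : ℕ, Nat.blt a b = decide (a < b) := by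
    intro a b
    by_cases hab : a < b
    · rw [decide_eq_true hab]
      rw [Nat.blt_eq]
      exact hab
    · rw [decide_eq_false hab]
      refine Bool.eq_false_iff.2 fun hc => hab ?_
      rw [Nat.blt_eq] at hc
      exact hc
  unfold sg at hs
  simp only [hb] at hs
  unfold pt
  rcases lt_or_gt_of_ne h1 with k1 | k1
  · rw [decide_eq_true k1, cond_true] at hs
    rcases lt_or_gt_of_ne h3 with k3 | k3
    · rw [decide_eq_true k3, cond_true] at hs
      exact (hh _ _ _ k1 k3 hw _ _ _).1 hs
    · rw [decide_eq_false (not_lt.2 k3.le), cond_false] at hs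
      rcases lt_or_gt_of_ne h2 with k2 | k2
      · rw [decide_eq_true k2, cond_true] at hs
        have := (hh _ _ _ k2 k3 hv u.1 w.1 v.1).2 (by simpa using hs)
        unfold o at this ⊢
        linarith
      · rw [decide_eq_false (not_lt.2 k2.le), cond_false] at hs
        have := (hh _ _ _ k2 k1 hv w.1 u.1 v.1).1 hs
        unfold o at this ⊢
        linarith
  · rw [decide_eq_false (not_lt.2 k1.le), cond_false] at hs
    rcases lt_or_gt_of_ne h2 with k2 | k2
    · rw [decide_eq_true k2, cond_true] at hs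
      have := (hh _ _ _ k1 k2 hw v.1 u.1 w.1).2 (by simpa using hs)
      unfold o at this ⊢
      linarith
    · rw [decide_eq_false (not_lt.2 k2.le), cond_false] at hs
      rcases lt_or_gt_of_ne h3 with k3 | k3
      · rw [decide_eq_true k3, cond_true] at hs
        have := (hh _ _ _ k3 k2 hu v.1 w.1 u.1).1 hs
        unfold o at this ⊢
        linarith
      · rw [decide_eq_false (not_lt.2 k3.le), cond_false] at hs
        have := (hh _ _ _ k3 k1 hu w.1 v.1 u.1).2 (by simpa using hs)
        unfold o at this ⊢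
        linarith

theorem X_self (a : Pt) : X a a a a = a := by
  unfold X
  rw [sub_self a, smul_zero, add_zero]

theorem pa_PatN {P : Bool → ℕ → Pt} {σ : Bool → Bool → Bool → Bool} (h : Hom 12 P σ)
    (lc : Bool) (rc : ℕ) (lx : Bool) (rx : ℕ) (ly : Bool) (ry rk : ℕ) (swx swy : Bool)
    (b1 : rc < 4) (b2 : rx < 4) (b3 : ry < 4) (b4 : rk < 4) (d1 : rc ≠ rx) (d2 : rc ≠ ry)
    (d3 : rc ≠ rk) (d4 : rx ≠ ry) (d5 : rx ≠ rk) (d6 : ry ≠ rk)
    (hp : pa σ lc rc lx rx ly ry rk swx swy = true) : PatN 12 P := by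
  unfold pa at hp
  obtain ⟨sx1, hsx1⟩ : ∃ s, s = 3 * rx + bif swx then 2 else 0 := ⟨_, rfl⟩
  obtain ⟨sx2, hsx2⟩ : ∃ s, s = 3 * rx + bif swx then 0 else 2 := ⟨_, rfl⟩
  obtain ⟨sy1, hsy1⟩ : ∃ s, s = 3 * ry + bif swy then 2 else 0 := ⟨_, rfl⟩
  obtain ⟨sy2, hsy2⟩ : ∃ s, s = 3 * ry + bif swy then 0 else 2 := ⟨_, rfl⟩
  rw [← hsx1, ← hsx2, ← hsy1, ← hsy2] at hp
  have ex : (sx1 = 3 * rx ∧ sx2 = 3 * rx + 2) ∨ (sx1 = 3 * rx + 2 ∧ sx2 = 3 * rx) := by
    cases swx
    · left
      exact ⟨hsx1, hsx2⟩
    · right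
      exact ⟨hsx1, hsx2⟩
  have ey : (sy1 = 3 * ry ∧ sy2 = 3 * ry + 2) ∨ (sy1 = 3 * ry + 2 ∧ sy2 = 3 * ry) := by
    cases swy
    · left
      exact ⟨hsy1, hsy2⟩
    · right
      exact ⟨hsy1, hsy2⟩
  unfold pv at hp
  simp only [Bool.and_eq_true] at hp
  obtain ⟨p1, p2, p3, p4, p5, p6, p7, p8, p9, p10, p11, p12, p13, p14⟩ := hp
  refine ⟨![(lc, 3 * rc + 1), (lc, 3 * rc + 1), (lc, 3 * rc + 1), (lc, 3 * rc + 1), (lx, sx1),
    (lx, sx2), (ly, sy1), (ly, sy2)], (lx, 3 * rx + 1), (ly, 3 * ry + 1), 3 * rk + 1, ?_, ?_, ?_,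
    ?_, ?_, ?_, ?_, ?_, ?_⟩
  · intro l
    fin_cases l <;> simp <;> omega
  · show 3 * rx + 1 < 12
    omega
  · show 3 * ry + 1 < 12
    omega
  · omega
  · show 3 * rx + 1 ≠ 3 * ry + 1
    omega
  · show 3 * rx + 1 ≠ 3 * rk + 1
    omega
  · show 3 * ry + 1 ≠ 3 * rk + 1
    omega
  · intro l
    fin_cases l <;> simp <;> omega
  · show Pat (X (pt P (lc, 3 * rc + 1)) (pt P (lc, 3 * rc + 1)) (pt P (lc, 3 * rc + 1))
      (pt P (lc, 3 * rc + 1))) (pt P (lx, sx1)) (pt P (lx, sx2)) (pt P (ly, sy1)) (pt P (ly, sy2))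
      (pt P (lx, 3 * rx + 1)) (pt P (ly, 3 * ry + 1)) (pt P (false, 3 * rk + 1))
      (pt P (true, 3 * rk + 1))
    rw [X_self]
    have key : ∀ u v w : Bool × ℕ, u.2 < 12 → v.2 < 12 → w.2 < 12 → u.2 ≠ v.2 → u.2 ≠ w.2 →
        v.2 ≠ w.2 → sg σ u v w = true → 0 < o (pt P u) (pt P v) (pt P w) :=
      fun u v w c1 c2 c3 c4 c5 c6 c7 => sg_pos h c1 c2 c3 c4 c5 c6 c7
    refine ⟨⟨?_, ?_, ?_, ?_, ?_, ?_⟩, ⟨?_, ?_⟩, ⟨?_, ?_⟩, ⟨?_, ?_⟩, ⟨?_, ?_⟩⟩
    · exact key _ _ _ (by dsimp only; omega) (by dsimp only; omega) (by dsimp only; omega) (by dsimp only; omega) (by dsimp only; omega) (by dsimp only; omega) p1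
    · exact key _ _ _ (by dsimp only; omega) (by dsimp only; omega) (by dsimp only; omega) (by dsimp only; omega) (by dsimp only; omega) (by dsimp only; omega) p2
    · exact key _ _ _ (by dsimp only; omega) (by dsimp only; omega) (by dsimp only; omega) (by dsimp only; omega) (by dsimp only; omega) (by dsimp only; omega) p3
    · exact key _ _ _ (by dsimp only; omega) (by dsimp only; omega) (by dsimp only; omega) (by dsimp only; omega) (by dsimp only; omega) (by dsimp only; omega) p4
    · exact key _ _ _ (by dsimp only; omega) (by dsimp only; omega) (by dsimp only; omega) (by dsimp only; omega) (by dsimp only; omega) (by dsimp only; omega) p5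
    · exact key _ _ _ (by dsimp only; omega) (by dsimp only; omega) (by dsimp only; omega) (by dsimp only; omega) (by dsimp only; omega) (by dsimp only; omega) p6
    · exact key _ _ _ (by dsimp only; omega) (by dsimp only; omega) (by dsimp only; omega) (by dsimp only; omega) (by dsimp only; omega) (by dsimp only; omega) p7
    · exact key _ _ _ (by dsimp only; omega) (by dsimp only; omega) (by dsimp only; omega) (by dsimp only; omega) (by dsimp only; omega) (by dsimp only; omega) p8
    · exact key _ _ _ (by dsimp only; omega) (by dsimp only; omega) (by dsimp only; omega) (by dsimp only; omega) (by dsimp only; omega) (by dsimp only; omega) p9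
    · exact key _ _ _ (by dsimp only; omega) (by dsimp only; omega) (by dsimp only; omega) (by dsimp only; omega) (by dsimp only; omega) (by dsimp only; omega) p10
    · exact key _ _ _ (by dsimp only; omega) (by dsimp only; omega) (by dsimp only; omega) (by dsimp only; omega) (by dsimp only; omega) (by dsimp only; omega) p11
    · exact key _ _ _ (by dsimp only; omega) (by dsimp only; omega) (by dsimp only; omega) (by dsimp only; omega) (by dsimp only; omega) (by dsimp only; omega) p12
    · exact key _ _ _ (by dsimp only; omega) (by dsimp only; omega) (by dsimp only; omega) (by dsimp only; omega) (by dsimp only; omega) (by dsimp only; omega) p13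
    · exact key _ _ _ (by dsimp only; omega) (by dsimp only; omega) (by dsimp only; omega) (by dsimp only; omega) (by dsimp only; omega) (by dsimp only; omega) p14

theorem patB_PatN {P : Bool → ℕ → Pt} {σ : Bool → Bool → Bool → Bool} (h : Hom 12 P σ)
    (hp : patB σ = true) : PatN 12 P := by
  unfold patB at hp
  simp only [Bool.or_eq_true] at hp
  rcases hp with hp | hp | hp | hp | hp | hp | hp | hp | hp | hp | hp | hp
  all_goals
    refine pa_PatN h _ _ _ _ _ _ _ _ _ ?_ ?_ ?_ ?_ ?_ ?_ ?_ ?_ ?_ ?_ hp <;> norm_num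

theorem cls : S_Class := by
  intro P σ h
  have hc := chk_true σ
  unfold chk at hc
  rw [okB_true h] at hc
  simp only [Bool.not_true, Bool.false_or, Bool.or_eq_true] at hc
  rcases hc with hc | hc | hc
  · exact Or.inl (patB_PatN h hc)
  · right
    left
    refine ⟨σ false false false, fun a b c => ?_⟩
    have := allB_spec (allB_spec (allB_spec hc a) b) c
    exact beq_iff_eq.1 this
  · right
    right
    unfold blkB at hc
    simp only [Bool.and_eq_true, beq_iff_eq] at hc
    obtain ⟨h1, h2, h3, h4⟩ := hc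
    refine ⟨σ false false false, σ true false false, σ false true true, σ true true true, ?_⟩
    funext x y z
    cases x <;> cases y <;> cases z
    · rfl
    · exact h2
    · exact h1
    · rfl
    · rfl
    · exact h3
    · exact h4
    · rfl

end Pool.Agent.W382.PT
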