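import Pool.Agent.W684.PT.Stm

/-!
# The coding is one to one (S_COMB2)
-/

set_option autoImplicit false

namespace Pool.Agent.W382.PT.Comb2

open Equiv Pool.Agent.W684.PT

variable {A : Type} {s : A → A → Prop}

lemma blk_mem (h3 : Three s) {x y z u : A} (hb : Blk s x y z) (hu : s x u) :
    u = x ∨ u = y ∨ u = z := by
  obtain ⟨a, b, hab, hab'⟩ := h3 x
  obtain ⟨h1, h2, h3, h4, h5, h6⟩ := hb
  have e1 := hab' y h1
  have e2 := hab' z h2
  have e3 := hab' u hu
  grind

open Classical in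
lemma sw_out {c a b u : A} (h1 : s c a) (h2 : s c b) (h : ¬ s c u) :
    swap a b u = u := by
  apply swap_apply_of_ne_of_ne
  · rintro rfl; exact h h1
  · rintro rfl; exact h h2

open Classical in
lemma sw_in {c a b u : A} (h1 : s c a) (h2 : s c b) (h : s c u) : s c (swap a b u) := by
  rw [swap_apply_def]
  split_ifs
  · exact h2
  · exact h1
  · exact h

open Classical in
lemma blk_swap (hs : Equivalence s) (h3 : Three s) {x x' x'' u : A} (hb : Blk s x x' x'')
    (hu : s x u) :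
    (x ≠ u → swap x' x'' u ≠ u ∧ swap x' x'' u ≠ x ∧ s u (swap x' x'' u)) ∧
      (x = u → swap x' x'' u = u) := by
  have h0 := blk_mem h3 hb hu
  obtain ⟨h1, h2, h3, h4, h5, h6⟩ := hb
  constructor
  · intro hne
    rcases h0 with h | h | h
    · exact absurd h.symm hne
    · subst h
      rw [swap_apply_left]
      exact ⟨h6.symm, h5.symm, h3⟩
    · subst h
      rw [swap_apply_right]
      exact ⟨h6, h4.symm, hs.symm h3⟩
  · rintro rfl
    exact swap_apply_of_ne_of_ne h4 h5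

/-- The class of `u` meets `{x, y, z}` at most in one point. -/
lemma q1 (hs : Equivalence s) (h3 : Three s) {X : Finset A} {p : Perm A} (h : TypeOne s X p) :
    (∀ a ∈ X, ∀ b ∈ X, s a b → a = b) ∧ ∀ u,
      (∀ a ∈ X, s a u → a ≠ u → p u ≠ u ∧ p u ≠ a ∧ s u (p u)) ∧
      ((∀ a ∈ X, s a u → a = u) → p u = u) := by
  classical
  obtain ⟨x, x', x'', y, y', y'', z, z', z'', hx, hy, hz, hxy, hxz, hyz, hX, hp⟩ := h
  have hmem : ∀ a, a ∈ X ↔ a = x ∨ a = y ∨ a = z := by
    intro a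
    rw [hX]
    simp
  have hP : ∀ a ∈ X, ∀ b ∈ X, s a b → a = b := by
    intro a ha b hb hab
    rcases (hmem a).1 ha with rfl | rfl | rfl <;> rcases (hmem b).1 hb with rfl | rfl | rfl
    · rfl
    · exact absurd hab hxy
    · exact absurd hab hxz
    · exact absurd (hs.symm hab) hxy
    · rfl
    · exact absurd hab hyz
    · exact absurd (hs.symm hab) hxz
    · exact absurd (hs.symm hab) hyz
    · rfl
  refine ⟨hP, fun u => ?_⟩
  have hpu : p u = swap x' x'' (swap y' y'' (swap z' z'' u)) := by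
    rw [hp]
    simp only [Perm.mul_apply]
  -- the key: for `c` in `X` with `s c u`
  have key : ∀ c c' c'', c ∈ X → Blk s c c' c'' → s c u → p u = swap c' c'' u →
      (∀ a ∈ X, s a u → a ≠ u → p u ≠ u ∧ p u ≠ a ∧ s u (p u)) ∧
      ((∀ a ∈ X, s a u → a = u) → p u = u) := by
    intro c c' c'' hc hb hcu hpu'
    have h1 := blk_swap hs h3 hb hcu
    rw [hpu']
    constructor
    · intro a ha hau hne
      have hac : a = c := hP a ha c hc (hs.trans hau (hs.symm hcu))
      subst hac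
      exact h1.1 hne
    · intro h
      exact h1.2 (h c hc hcu)
  by_cases h1 : s z u
  · refine key z z' z'' ((hmem z).2 (Or.inr (Or.inr rfl))) hz h1 ?_
    have h2 := sw_in hz.1 hz.2.1 h1
    rw [hpu, sw_out hy.1 hy.2.1 (fun h => hyz (hs.trans h (hs.symm h2))),
      sw_out hx.1 hx.2.1 (fun h => hxz (hs.trans h (hs.symm h2)))]
  have e1 := sw_out hz.1 hz.2.1 h1
  by_cases h2 : s y u
  · refine key y y' y'' ((hmem y).2 (Or.inr (Or.inl rfl))) hy h2 ?_
    have h3 := sw_in hy.1 hy.2.1 h2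
    rw [hpu, e1, sw_out hx.1 hx.2.1 (fun h => hxy (hs.trans h (hs.symm h3)))]
  have e2 := sw_out hy.1 hy.2.1 h2
  by_cases h3 : s x u
  · refine key x x' x'' ((hmem x).2 (Or.inl rfl)) hx h3 ?_
    rw [hpu, e1, e2]
  have e3 := sw_out hx.1 hx.2.1 h3
  constructor
  · intro a ha hau
    rcases (hmem a).1 ha with rfl | rfl | rfl
    · exact absurd hau h3
    · exact absurd hau h2
    · exact absurd hau h1
  · intro _
    rw [hpu, e1, e2, e3]

/-- `TypeOne` determines `p`. -/
lemma one_uniq (hs : Equivalence s) (h3 : Three s) {X : Finset A} {p q : Perm A}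
    (h : TypeOne s X p) (h' : TypeOne s X q) : q = p := by
  ext u
  have h1 := (q1 hs h3 h).2 u
  have h2 := (q1 hs h3 h').2 u
  by_cases hu : ∃ a ∈ X, s a u ∧ a ≠ u
  · obtain ⟨a, ha, hau, hne⟩ := hu
    obtain ⟨p1, p2, p3⟩ := h1.1 a ha hau hne
    obtain ⟨q1, q2, q3⟩ := h2.1 a ha hau hne
    have hb : Blk s u a (p u) :=
      ⟨hs.symm hau, p3, hs.trans hau p3, hne.symm, p1.symm, p2.symm⟩
    rcases blk_mem h3 hb q3 with h | h | h
    · exact absurd h q1
    · exact absurd h q2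
    · exact h
  · push Not at hu
    rw [h1.2 hu, h2.2 hu]

/-- `TypeOne` determines `X`. -/
lemma one_mem (hs : Equivalence s) (h3 : Three s) {X : Finset A} {p : Perm A}
    (h : TypeOne s X p) (u : A) : u ∈ X ↔ p u = u ∧ ∃ v, s u v ∧ p v ≠ v := by
  have h1 := q1 hs h3 h
  constructor
  · intro hu
    refine ⟨(h1.2 u).2 fun a ha hau => h1.1 a ha u hu hau, ?_⟩
    obtain ⟨v, w, hb, -⟩ := h3 u
    exact ⟨v, hb.1, ((h1.2 v).1 u hu hb.1 hb.2.2.2.1).1⟩
  · rintro ⟨hu, v, huv, hv⟩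
    have h2 : ∃ a ∈ X, s a v ∧ a ≠ v := by
      by_contra hcon
      push Not at hcon
      exact hv ((h1.2 v).2 hcon)
    obtain ⟨a, ha, hav, hne⟩ := h2
    by_contra hux
    have hau : a ≠ u := by
      rintro rfl
      exact hux ha
    exact ((h1.2 u).1 a ha (hs.trans hav (hs.symm huv)) hau).1 hu

/-- In `TypeOne` each moved point is related to another moved point. -/
lemma one_moved (hs : Equivalence s) (h3 : Three s) {X : Finset A} {p : Perm A}
    (h : TypeOne s X p) (u : A) (hu : p u ≠ u) : ∃ v, v ≠ u ∧ s u v ∧ p v ≠ v := by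
  have h1 := q1 hs h3 h
  have h2 : ∃ a ∈ X, s a u ∧ a ≠ u := by
    by_contra hcon
    push Not at hcon
    exact hu ((h1.2 u).2 hcon)
  obtain ⟨a, ha, hau, hne⟩ := h2
  obtain ⟨p1, p2, p3⟩ := (h1.2 u).1 a ha hau hne
  exact ⟨p u, p1, p3, fun h => p1 (p.injective h)⟩

/-- Pointwise description of `TypeTwo`. -/
def Q2 (s : A → A → Prop) (x y w z : A) (p : Perm A) : Prop :=
  Blk s x y w ∧ ¬ s w z ∧ z ≠ x ∧ z ≠ y ∧ z ≠ w ∧ p x = y ∧ p y = x ∧ p w = z ∧ p z = w ∧
    ∀ u, u ≠ x → u ≠ y → u ≠ w → u ≠ z → p u = u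

lemma q2 (hs : Equivalence s) {X : Finset A} {p : Perm A} (h : TypeTwo s X p) :
    ∃ x y w z, Q2 s x y w z p ∧ (∀ a, a ∈ X ↔ a = x ∨ a = y ∨ a = z) := by
  classical
  obtain ⟨x, y, w, z, hb, hwz, hX, hp⟩ := h
  obtain ⟨h1, h2, h3, h4, h5, h6⟩ := id hb
  have hzx : z ≠ x := by
    rintro rfl
    exact hwz (hs.symm h2)
  have hzy : z ≠ y := by
    rintro rfl
    exact hwz (hs.symm h3)
  have hzw : z ≠ w := by
    rintro rfl
    exact hwz (hs.refl _)
  have hpu : ∀ u, p u = swap x y (swap w z u) := by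
    intro u
    rw [hp]
    simp only [Perm.mul_apply]
  refine ⟨x, y, w, z, ⟨hb, hwz, hzx, hzy, hzw, ?_, ?_, ?_, ?_, ?_⟩, ?_⟩
  · rw [hpu, swap_apply_of_ne_of_ne h5 hzx.symm, swap_apply_left]
  · rw [hpu, swap_apply_of_ne_of_ne h6 hzy.symm, swap_apply_right]
  · rw [hpu, swap_apply_left, swap_apply_of_ne_of_ne hzx hzy]
  · rw [hpu, swap_apply_right, swap_apply_of_ne_of_ne h5.symm h6.symm]
  · intro u e1 e2 e3 e4
    rw [hpu, swap_apply_of_ne_of_ne e3 e4, swap_apply_of_ne_of_ne e1 e2]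
  · intro a
    rw [hX]
    simp

/-- In `TypeTwo` a moved point related to a fixed point is `z`. -/
lemma two_z (hs : Equivalence s) (h3 : Three s) {x y w z : A} {p : Perm A}
    (h : Q2 s x y w z p) (u : A) : (p u ≠ u ∧ ∃ v, s u v ∧ p v = v) ↔ u = z := by
  obtain ⟨hb, hwz, hzx, hzy, hzw, px, py, pw, pz, pu⟩ := h
  have hcl : ∀ v, s x v → p v ≠ v := by
    intro v hv
    rcases blk_mem h3 hb hv with rfl | rfl | rfl
    · rw [px]; exact hb.2.2.2.1.symm
    · rw [py]; exact hb.2.2.2.1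
    · rw [pw]; exact hzw
  constructor
  · rintro ⟨hu, v, huv, hv⟩
    by_contra hne
    by_cases e1 : u = x
    · subst e1; exact hcl v huv hv
    by_cases e2 : u = y
    · subst e2; exact hcl v (hs.trans hb.1 huv) hv
    by_cases e3 : u = w
    · subst e3; exact hcl v (hs.trans hb.2.1 huv) hv
    exact hu (pu u e1 e2 e3 hne)
  · rintro rfl
    refine ⟨by rw [pz]; exact hzw.symm, ?_⟩
    obtain ⟨v, v', hb', -⟩ := h3 u
    refine ⟨v, hb'.1, pu v ?_ ?_ ?_ hb'.2.2.2.1.symm⟩
    · rintro rfl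
      exact hwz (hs.trans (hs.symm hb.2.1) (hs.symm hb'.1))
    · rintro rfl
      exact hwz (hs.trans (hs.symm hb.2.2.1) (hs.symm hb'.1))
    · rintro rfl
      exact hwz (hs.symm hb'.1)

/-- In `TypeTwo` the point `z` is related to no other moved point. -/
lemma two_moved (hs : Equivalence s) {x y w z : A} {p : Perm A}
    (h : Q2 s x y w z p) : p z ≠ z ∧ ∀ v, v ≠ z → s z v → p v = v := by
  obtain ⟨hb, hwz, hzx, hzy, hzw, px, py, pw, pz, pu⟩ := h
  refine ⟨by rw [pz]; exact hzw.symm, fun v hv hzv => pu v ?_ ?_ ?_ hv⟩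
  · rintro rfl
    exact hwz (hs.trans (hs.symm hb.2.1) (hs.symm hzv))
  · rintro rfl
    exact hwz (hs.trans (hs.symm hb.2.2.1) (hs.symm hzv))
  · rintro rfl
    exact hwz (hs.symm hzv)

/-- `TypeTwo` determines `X`. -/
lemma two_X (hs : Equivalence s) (h3 : Three s) {X Y : Finset A} {p : Perm A}
    (h : TypeTwo s X p) (h' : TypeTwo s Y p) : Y = X := by
  obtain ⟨x, y, w, z, hq, hX⟩ := q2 hs h
  obtain ⟨x1, y1, w1, z1, hq1, hY⟩ := q2 hs h'
  have hz : z1 = z := (two_z hs h3 hq z1).1 ((two_z hs h3 hq1 z1).2 rfl)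
  subst hz
  obtain ⟨hb, hwz, hzx, hzy, hzw, px, py, pw, pz, pu⟩ := hq
  obtain ⟨hb1, hwz1, hzx1, hzy1, hzw1, px1, py1, pw1, pz1, pu1⟩ := hq1
  have hw : w1 = w := pz1.symm.trans pz
  subst hw
  obtain ⟨b1, b2, b3, b4, b5, b6⟩ := hb
  obtain ⟨c1, c2, c3, c4, c5, c6⟩ := hb1
  have m1 : x = x1 ∨ x = y1 := by
    by_contra hcon
    push Not at hcon
    have := pu1 x hcon.1 hcon.2 b5 hzx.symm
    rw [px] at this
    exact b4 this.symm
  have m2 : y = x1 ∨ y = y1 := by
    by_contra hcon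
    push Not at hcon
    have := pu1 y hcon.1 hcon.2 b6 hzy.symm
    rw [py] at this
    exact b4 this
  ext a
  rw [hX, hY]
  grind

/-- `TypeTwo` determines `p`. -/
lemma two_uniq (hs : Equivalence s) (h3 : Three s) {X : Finset A} {p q : Perm A}
    (h : TypeTwo s X p) (h' : TypeTwo s X q) : q = p := by
  obtain ⟨x, y, w, z, hq, hX⟩ := q2 hs h
  obtain ⟨x1, y1, w1, z1, hq1, hX1⟩ := q2 hs h'
  obtain ⟨hb, hwz, hzx, hzy, hzw, px, py, pw, pz, pu⟩ := hq
  obtain ⟨hb1, hwz1, hzx1, hzy1, hzw1, px1, py1, pw1, pz1, pu1⟩ := hq1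
  have hb' := hb
  obtain ⟨b1, b2, b3, b4, b5, b6⟩ := hb
  obtain ⟨c1, c2, c3, c4, c5, c6⟩ := hb1
  -- z = z1
  have e0 : ∀ v, v ∈ X → s z v → v = z := by
    intro v hv hzv
    rcases (hX v).1 hv with rfl | rfl | rfl
    · exact absurd (hs.trans (hs.symm b2) (hs.symm hzv)) hwz
    · exact absurd (hs.trans (hs.symm b3) (hs.symm hzv)) hwz
    · rfl
  have hz : z = z1 := by
    rcases (hX1 z).1 ((hX z).2 (Or.inr (Or.inr rfl))) with h | h | h
    · exfalso
      have h2 := e0 y1 ((hX1 y1).2 (Or.inr (Or.inl rfl))) (by rw [h]; exact c1)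
      exact c4 (h.symm.trans h2.symm)
    · exfalso
      have h2 := e0 x1 ((hX1 x1).2 (Or.inl rfl)) (by rw [h]; exact hs.symm c1)
      exact c4 (h2.trans h)
    · exact h
  subst hz
  have m1 : x = x1 ∨ x = y1 := by
    rcases (hX1 x).1 ((hX x).2 (Or.inl rfl)) with h | h | h
    · exact Or.inl h
    · exact Or.inr h
    · exact absurd h.symm hzx
  have m2 : y = x1 ∨ y = y1 := by
    rcases (hX1 y).1 ((hX y).2 (Or.inr (Or.inl rfl))) with h | h | h
    · exact Or.inl h
    · exact Or.inr h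
    · exact absurd h.symm hzy
  have hxw : s x w1 := by
    rcases m1 with h | h
    · rw [h]; exact c2
    · rw [h]; exact c3
  have hw : w1 = w := by
    rcases blk_mem h3 hb' hxw with h | h | h
    · exfalso; grind
    · exfalso; grind
    · exact h
  subst hw
  ext u
  by_cases u1 : u = x
  · subst u1
    rw [px]
    rcases m1 with h | h
    · subst h
      rw [px1]; grind
    · subst h
      rw [py1]; grind
  by_cases u2 : u = y
  · subst u2
    rw [py]
    rcases m2 with h | h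
    · subst h
      rw [px1]; grind
    · subst h
      rw [py1]; grind
  by_cases u3 : u = w1
  · subst u3
    rw [pw, pw1]
  by_cases u4 : u = z
  · subst u4
    rw [pz, pz1]
  rw [pu u u1 u2 u3 u4]
  apply pu1 u _ _ u3 u4
  · grind
  · grind

theorem comb2 : S_COMB2 := by
  classical
  intro A s hs h3 X p hc
  rcases hc with h | h
  · -- type one
    have h1 := q1 hs h3 h
    refine ⟨?_, ?_, ?_, ?_, ?_⟩
    · obtain ⟨x, x', x'', y, y', y'', z, z', z'', hx, hy, hz, hxy, hxz, hyz, hX, hp⟩ := h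
      rw [Finset.card_eq_three]
      refine ⟨x, y, z, ?_, ?_, ?_, ?_⟩
      · rintro rfl; exact hxy (hs.refl _)
      · rintro rfl; exact hxz (hs.refl _)
      · rintro rfl; exact hyz (hs.refl _)
      · rw [hX]
    · obtain ⟨x, x', x'', y, y', y'', z, z', z'', hx, hy, hz, hxy, hxz, hyz, hX, hp⟩ := h
      refine Set.Finite.subset (Set.toFinite {x', x'', y', y'', z', z''}) ?_
      intro u hu
      by_contra hcon
      simp only [Set.mem_insert_iff, Set.mem_singleton_iff, not_or] at hcon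
      obtain ⟨e1, e2, e3, e4, e5, e6⟩ := hcon
      apply hu
      rw [hp]
      simp only [Perm.mul_apply]
      rw [swap_apply_of_ne_of_ne e5 e6, swap_apply_of_ne_of_ne e3 e4,
        swap_apply_of_ne_of_ne e1 e2]
    · intro a b c hb hX
      have ha' : a ∈ X := by rw [hX]; simp
      have hb' : b ∈ X := by rw [hX]; simp
      exact hb.2.2.2.1 (h1.1 a ha' b hb' hb.1)
    · rintro q (h' | h')
      · exact one_uniq hs h3 h h'
      · exfalso
        obtain ⟨x, y, w, z, hq, hX⟩ := q2 hs h'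
        exact hq.1.2.2.2.1 (h1.1 x ((hX x).2 (Or.inl rfl)) y ((hX y).2 (Or.inr (Or.inl rfl)))
          hq.1.1)
    · rintro Y (h' | h')
      · ext u
        rw [one_mem hs h3 h, one_mem hs h3 h']
      · exfalso
        obtain ⟨x, y, w, z, hq, hX⟩ := q2 hs h'
        obtain ⟨m1, m2⟩ := two_moved hs hq
        obtain ⟨v, hv, hzv, hpv⟩ := one_moved hs h3 h z m1
        exact hpv (m2 v hv hzv)
  · -- type two
    obtain ⟨x, y, w, z, hq, hX⟩ := q2 hs h
    refine ⟨?_, ?_, ?_, ?_, ?_⟩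
    · rw [Finset.card_eq_three]
      refine ⟨x, y, z, hq.1.2.2.2.1, hq.2.2.1.symm, hq.2.2.2.1.symm, ?_⟩
      ext a
      rw [hX]
      simp
    · refine Set.Finite.subset (Set.toFinite {x, y, w, z}) ?_
      intro u hu
      by_contra hcon
      simp only [Set.mem_insert_iff, Set.mem_singleton_iff, not_or] at hcon
      obtain ⟨e1, e2, e3, e4⟩ := hcon
      exact hu (hq.2.2.2.2.2.2.2.2.2 u e1 e2 e3 e4)
    · intro a b c hb hXe
      have hall : ∀ u ∈ X, s a u := by
        intro u hu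
        rw [hXe] at hu
        simp only [Finset.mem_insert, Finset.mem_singleton] at hu
        rcases hu with rfl | rfl | rfl
        · exact hs.refl _
        · exact hb.1
        · exact hb.2.1
      have e1 := hall x ((hX x).2 (Or.inl rfl))
      have e2 := hall z ((hX z).2 (Or.inr (Or.inr rfl)))
      exact hq.2.1 (hs.trans (hs.symm hq.1.2.1) (hs.trans (hs.symm e1) e2))
    · rintro q (h' | h')
      · exfalso
        have h1 := q1 hs h3 h'
        exact hq.1.2.2.2.1 (h1.1 x ((hX x).2 (Or.inl rfl)) y ((hX y).2 (Or.inr (Or.inl rfl)))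
          hq.1.1)
      · exact two_uniq hs h3 h h'
    · rintro Y (h' | h')
      · exfalso
        obtain ⟨m1, m2⟩ := two_moved hs hq
        obtain ⟨v, hv, hzv, hpv⟩ := one_moved hs h3 h' z m1
        exact hpv (m2 v hv hzv)
      · exact two_X hs h3 h h'

end Pool.Agent.W382.PT.Comb2
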